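import Pool.Agent.helper95.FJ.SpecC

/-! CMZ: the number of relevant differences. -/

set_option autoImplicit false

namespace Pool.Agent.FJ

open Finset Pool.Agent.FI

private theorem CMZ_gap {K : ℕ} (hK : 1 ≤ K) {m m' : ℤ} (h0 : -(K : ℤ) < m) (hmm : m ≤ m') :
    ((m' : ℝ) - m) / (3 * K) ≤ (2 : ℝ) ^ ((m' : ℝ) / K) - (2 : ℝ) ^ ((m : ℝ) / K) := by
  have hK' : (0 : ℝ) < K := by exact_mod_cast hK
  have hd : (0 : ℝ) ≤ (m' : ℝ) - m := by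
    have : (m : ℝ) ≤ m' := by exact_mod_cast hmm
    linarith
  have e1 : (2 : ℝ) ^ ((m' : ℝ) / K) = (2 : ℝ) ^ ((m : ℝ) / K) * (2 : ℝ) ^ (((m' : ℝ) - m) / K) := by
    rw [← Real.rpow_add (by norm_num)]
    congr 1
    ring
  have e2 : Real.log 2 * (((m' : ℝ) - m) / K) + 1 ≤ (2 : ℝ) ^ (((m' : ℝ) - m) / K) := by
    rw [Real.rpow_def_of_pos (by norm_num)]
    exact Real.add_one_le_exp _
  have e3 : (1 / 2 : ℝ) ≤ (2 : ℝ) ^ ((m : ℝ) / K) := by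
    have h : (2 : ℝ) ^ (-1 : ℝ) ≤ (2 : ℝ) ^ ((m : ℝ) / K) := by
      refine Real.rpow_le_rpow_of_exponent_le (by norm_num) ?_
      rw [le_div_iff₀ hK']
      have : (((-(K : ℤ) : ℤ)) : ℝ) < m := by exact_mod_cast h0
      push_cast at this
      linarith
    rw [Real.rpow_neg_one] at h
    linarith
  have hlog : (0.6931471803 : ℝ) < Real.log 2 := Real.log_two_gt_d9
  set q : ℝ := ((m' : ℝ) - m) / K with hq
  have hq0 : 0 ≤ q := by positivity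
  have e4 : ((m' : ℝ) - m) / (3 * K) = q / 3 := by
    rw [hq]
    field_simp
  rw [e4, e1]
  have e5 : Real.log 2 * q ≤ (2 : ℝ) ^ q - 1 := by linarith
  have e6 : (2 / 3 : ℝ) * q ≤ Real.log 2 * q := mul_le_mul_of_nonneg_right (by linarith) hq0
  have e7 : 0 ≤ (2 : ℝ) ^ q - 1 := by nlinarith
  calc q / 3 = 1 / 2 * (2 / 3 * q) := by ring
    _ ≤ 1 / 2 * ((2 : ℝ) ^ q - 1) := by linarith
    _ ≤ (2 : ℝ) ^ ((m : ℝ) / K) * ((2 : ℝ) ^ q - 1) := mul_le_mul_of_nonneg_right e3 e7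
    _ = (2 : ℝ) ^ ((m : ℝ) / K) * (2 : ℝ) ^ q - (2 : ℝ) ^ ((m : ℝ) / K) := by ring

theorem CMZ : CMZ_stmt := by
  classical
  refine ⟨12, by norm_num, ?_⟩
  intro x N A K₁ K hx hN hK p hp
  have hx' : (0 : ℝ) < x := by exact_mod_cast hx
  have hN' : (0 : ℝ) < N := by exact_mod_cast hN
  have hK' : (0 : ℝ) < K := by exact_mod_cast hK
  simp only [Pr, mem_filter, mem_product] at hp
  obtain ⟨⟨hz, hz'⟩, hr1, hr2⟩ := hp
  have hn : (N : ℝ) < |(N8 p.1 : ℝ)| := by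
    simp only [ZD, mem_filter] at hz
    have h := hz.2.1
    unfold nn at h
    have h2 : (N : ℤ) < |N8 p.1| := by
      rw [← Int.natCast_natAbs]
      exact_mod_cast h
    exact_mod_cast h2
  have hD : (x : ℝ) * ((dl p.1 p.2).natAbs : ℝ) ≤ N * A := by exact_mod_cast hr2
  set D : ℝ := ((dl p.1 p.2).natAbs : ℝ) with hDdef
  have hD0 : 0 ≤ D := by positivity
  set Y : ℝ := 12 * ((A : ℝ) ^ 2 * K / x ^ 2) with hY
  have hY0 : 0 ≤ Y := by positivity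
  rcases (Mz x K A p.1 p.2).eq_empty_or_nonempty with he | hne
  · rw [he]
    simp only [card_empty, Nat.cast_zero]
    positivity
  obtain ⟨m₀, hm₀, hmin⟩ := (Mz x K A p.1 p.2).exists_min_image id hne
  have hin : ∀ m ∈ Mz x K A p.1 p.2, m ∈ Icc m₀ (m₀ + ⌊Y⌋) := by
    intro m hm
    have h1 : m₀ ≤ m := hmin m hm
    rw [mem_Icc]
    refine ⟨h1, ?_⟩
    simp only [Mz, mem_filter, mem_Ioo] at hm hm₀
    have h2 : ((m : ℝ) - m₀) / (3 * K) ≤ 4 * (A : ℝ) ^ 2 / x ^ 2 := by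
      refine (CMZ_gap hK hm₀.1.1 h1).trans ?_
      have h3 : |(N8 p.1 : ℝ)| * ((2 : ℝ) ^ ((m : ℝ) / K) - (2 : ℝ) ^ ((m₀ : ℝ) / K)) ≤ 4 * A * D / x := by
        have h4 : |(N8 p.1 : ℝ) * ((2 : ℝ) ^ ((m : ℝ) / K) - (2 : ℝ) ^ ((m₀ : ℝ) / K))| ≤ 4 * A * D / x := by
          have e : (N8 p.1 : ℝ) * ((2 : ℝ) ^ ((m : ℝ) / K) - (2 : ℝ) ^ ((m₀ : ℝ) / K)) =
            ((sp p.1 p.2 : ℝ) - N8 p.1 * (2 : ℝ) ^ ((m₀ : ℝ) / K)) -
            ((sp p.1 p.2 : ℝ) - N8 p.1 * (2 : ℝ) ^ ((m : ℝ) / K)) := by ring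
          rw [e]
          refine (abs_sub _ _).trans ?_
          have h5 := hm₀.2
          have h6 := hm.2
          have e' : 4 * (A : ℝ) * D / x = 2 * A * D / x + 2 * A * D / x := by ring
          rw [e']
          exact add_le_add h5 h6
        refine le_trans ?_ h4
        rw [abs_mul]
        exact mul_le_mul_of_nonneg_left (le_abs_self _) (abs_nonneg _)
      have h7 : 0 ≤ (2 : ℝ) ^ ((m : ℝ) / K) - (2 : ℝ) ^ ((m₀ : ℝ) / K) := by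
        refine le_trans ?_ (CMZ_gap hK hm₀.1.1 h1)
        have : (m₀ : ℝ) ≤ m := by exact_mod_cast h1
        have h8 : 0 ≤ (m : ℝ) - m₀ := by linarith
        positivity
      rw [le_div_iff₀ (by positivity)]
      have h9 : (N : ℝ) * ((2 : ℝ) ^ ((m : ℝ) / K) - (2 : ℝ) ^ ((m₀ : ℝ) / K)) ≤ 4 * A * D / x :=
        (mul_le_mul_of_nonneg_right hn.le h7).trans h3
      rw [le_div_iff₀ hx'] at h9
      refine le_of_mul_le_mul_left ?_ hN'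
      calc (N : ℝ) * (((2 : ℝ) ^ ((m : ℝ) / K) - (2 : ℝ) ^ ((m₀ : ℝ) / K)) * x ^ 2)
          = (N * ((2 : ℝ) ^ ((m : ℝ) / K) - (2 : ℝ) ^ ((m₀ : ℝ) / K)) * x) * x := by ring
        _ ≤ (4 * A * D) * x := mul_le_mul_of_nonneg_right h9 hx'.le
        _ = 4 * A * (x * D) := by ring
        _ ≤ 4 * A * (N * A) := mul_le_mul_of_nonneg_left hD (by positivity)
        _ = N * (4 * A ^ 2) := by ring
    rw [div_le_iff₀ (by positivity)] at h2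
    have h10 : ((m - m₀ : ℤ) : ℝ) ≤ Y := by
      push_cast
      refine h2.trans (le_of_eq ?_)
      rw [hY]
      ring
    have h11 := Int.le_floor.2 h10
    linarith
  have hcard := card_le_card hin
  rw [Int.card_Icc] at hcard
  have hfl : 0 ≤ ⌊Y⌋ := Int.floor_nonneg.2 hY0
  have e1 : m₀ + ⌊Y⌋ + 1 - m₀ = ⌊Y⌋ + 1 := by ring
  rw [e1] at hcard
  have h12 : ((#(Mz x K A p.1 p.2) : ℕ) : ℝ) ≤ (((⌊Y⌋ + 1).toNat : ℕ) : ℝ) := by exact_mod_cast hcard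
  have h13 : (((⌊Y⌋ + 1).toNat : ℕ) : ℝ) = (⌊Y⌋ : ℝ) + 1 := by
    have : (((⌊Y⌋ + 1).toNat : ℕ) : ℤ) = ⌊Y⌋ + 1 := Int.toNat_of_nonneg (by linarith)
    have h14 : ((((⌊Y⌋ + 1).toNat : ℕ) : ℤ) : ℝ) = ((⌊Y⌋ + 1 : ℤ) : ℝ) := by rw [this]
    push_cast at h14
    exact h14
  rw [h13] at h12
  have h15 := Int.floor_le Y
  have h16 : 12 * (1 + (A : ℝ) ^ 2 * K / x ^ 2) = 12 + Y := by rw [hY]; ring
  rw [h16]
  linarith

end Pool.Agent.FJ
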