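import Pool.Agent.helper95.FJ.SpecE
import Pool.Agent.helper82.FI.LMS

/-! LMN: the second moment of `lam` over the cells. -/

set_option autoImplicit false

namespace Pool.Agent.FJ

open Finset Pool.Agent.FI

private theorem LMN_cnt (u₁ u₂ g : ℕ) (hg : 0 < g) (h12 : u₁ ≤ u₂) :
    ((#{l ∈ Ioc (u₁ : ℤ) u₂ | (g : ℤ) ∣ l} : ℕ) : ℝ) ≤ ((u₂ : ℝ) - u₁) / g + 1 := by
  have hg' : (0 : ℤ) < g := by exact_mod_cast hg
  have h5 := Int.Ioc_filter_dvd_card (u₁ : ℤ) (u₂ : ℤ) hg'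
  have h6 : ((#{l ∈ Ioc (u₁ : ℤ) u₂ | (g : ℤ) ∣ l} : ℤ) : ℚ) ≤ ((u₂ : ℚ) - u₁) / g + 1 := by
    rw [h5]
    push_cast
    apply max_le
    · have h7 := Int.floor_le ((u₂ : ℚ) / g)
      have h8 := Int.lt_floor_add_one ((u₁ : ℚ) / g)
      have h9 : ((u₂ : ℚ) - u₁) / g = u₂ / g - u₁ / g := by ring
      rw [h9]
      linarith
    · have h7 : (u₁ : ℚ) ≤ u₂ := by exact_mod_cast h12
      have h8 : 0 ≤ ((u₂ : ℚ) - u₁) / g := div_nonneg (by linarith) (by positivity)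
      linarith
  have h11 : ((#{l ∈ Ioc (u₁ : ℤ) u₂ | (g : ℤ) ∣ l} : ℕ) : ℚ) ≤ ((u₂ : ℚ) - u₁) / g + 1 := by exact_mod_cast h6
  have h13 := (Rat.cast_le (K := ℝ)).2 h11
  push_cast at h13 ⊢
  exact h13

open scoped Classical in
private theorem LMN_bad (x Z k : ℕ) (M : ℝ) (lm : ℤ → ℝ) (hlm : LamOK x Z M lm) (hZ : 1 ≤ Z) (hk : 1 ≤ k)
    (hkx : k ≤ x ^ 3) (u₁ u₂ : ℕ) (h12 : u₁ ≤ u₂) :
    (#{l ∈ Ioc (u₁ : ℤ) u₂ | lm l ≠ 0 ∧ ¬ IsCoprime l (k : ℤ)} : ℝ) ≤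
      5 * Real.log x * (((u₂ : ℝ) - u₁) / Z + 1) := by
  have hZr : (0 : ℝ) < Z := by exact_mod_cast hZ
  have h12' : (0 : ℝ) ≤ (u₂ : ℝ) - u₁ := by
    have : (u₁ : ℝ) ≤ u₂ := by exact_mod_cast h12
    linarith
  have hsub : {l ∈ Ioc (u₁ : ℤ) u₂ | lm l ≠ 0 ∧ ¬ IsCoprime l (k : ℤ)} ⊆
      (k.primeFactors.filter (fun g => Z < g)).biUnion fun g => {l ∈ Ioc (u₁ : ℤ) u₂ | (g : ℤ) ∣ l} := by
    intro l hl
    rw [mem_filter] at hl
    obtain ⟨hl1, hl2, hl3⟩ := hl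
    rw [Int.isCoprime_iff_gcd_eq_one] at hl3
    obtain ⟨g, hg, hgd⟩ := Nat.exists_prime_and_dvd hl3
    have hgl : (g : ℤ) ∣ l := (Int.natCast_dvd_natCast.2 hgd).trans (Int.gcd_dvd_left l k)
    have hgk : (g : ℤ) ∣ (k : ℤ) := (Int.natCast_dvd_natCast.2 hgd).trans (Int.gcd_dvd_right l k)
    rw [mem_biUnion]
    refine ⟨g, ?_, ?_⟩
    · rw [mem_filter, Nat.mem_primeFactors]
      refine ⟨⟨hg, Int.natCast_dvd_natCast.1 hgk, by omega⟩, ?_⟩
      by_contra hc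
      push Not at hc
      exact (hlm.2 l hl2).2.2 g hg hc hgl
    · rw [mem_filter]
      exact ⟨hl1, hgl⟩
  have hcard : (#{l ∈ Ioc (u₁ : ℤ) u₂ | lm l ≠ 0 ∧ ¬ IsCoprime l (k : ℤ)} : ℝ) ≤
      ∑ g ∈ k.primeFactors.filter (fun g => Z < g), ((#{l ∈ Ioc (u₁ : ℤ) u₂ | (g : ℤ) ∣ l} : ℕ) : ℝ) := by
    have := (card_le_card hsub).trans card_biUnion_le
    exact_mod_cast this
  refine hcard.trans ?_
  have hL : 0 ≤ Real.log x := Real.log_natCast_nonneg x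
  calc ∑ g ∈ k.primeFactors.filter (fun g => Z < g), ((#{l ∈ Ioc (u₁ : ℤ) u₂ | (g : ℤ) ∣ l} : ℕ) : ℝ)
      ≤ ∑ g ∈ k.primeFactors.filter (fun g => Z < g), (((u₂ : ℝ) - u₁) / Z + 1) := by
        refine sum_le_sum fun g hg => ?_
        rw [mem_filter] at hg
        have hg0 : 0 < g := by omega
        refine (LMN_cnt u₁ u₂ g hg0 h12).trans ?_
        have h4 : (Z : ℝ) ≤ g := by exact_mod_cast hg.2.le
        have h5 : ((u₂ : ℝ) - u₁) / g ≤ ((u₂ : ℝ) - u₁) / Z := div_le_div_of_nonneg_left h12' hZr h4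
        linarith
    _ = ((k.primeFactors.filter (fun g => Z < g)).card : ℝ) * (((u₂ : ℝ) - u₁) / Z + 1) := by
        rw [sum_const, nsmul_eq_mul]
    _ ≤ (5 * Real.log x) * (((u₂ : ℝ) - u₁) / Z + 1) := by
        refine mul_le_mul_of_nonneg_right ?_ (by positivity)
        refine le_trans ?_ (LMS_omega k x hk hkx)
        exact_mod_cast card_filter_le _ _

open scoped Classical in
private theorem LMN_B (x Z k q : ℕ) (L : ℝ) (hL : L = Real.log x) (lm : ℤ → ℝ) (hlm : LamOK x Z (2 * L) lm) (hZ : 1 ≤ Z)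
    (hk : 1 ≤ k) (hkx : k ≤ x ^ 3) (ψ : DirichletCharacter ℂ q) (u₁ u₂ : ℕ) (h12 : u₁ ≤ u₂) :
    ‖∑ l ∈ Ioc (u₁ : ℤ) u₂ with ¬ IsCoprime l (k : ℤ), (lm l : ℂ) * ψ (l : ZMod q)‖ ≤
      10 * L ^ 2 * (((u₂ : ℝ) - u₁) / Z + 1) := by
  have hL0 : 0 ≤ L := by rw [hL]; exact Real.log_natCast_nonneg x
  have e : ∑ l ∈ Ioc (u₁ : ℤ) u₂ with ¬ IsCoprime l (k : ℤ), (lm l : ℂ) * ψ (l : ZMod q) =
      ∑ l ∈ Ioc (u₁ : ℤ) u₂ with lm l ≠ 0 ∧ ¬ IsCoprime l (k : ℤ), (lm l : ℂ) * ψ (l : ZMod q) := by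
    symm
    apply sum_subset
    · intro l hl
      rw [mem_filter] at hl ⊢
      exact ⟨hl.1, hl.2.2⟩
    · intro l hl hl'
      rw [mem_filter] at hl hl'
      have h0 : lm l = 0 := by
        by_contra hc
        exact hl' ⟨hl.1, hc, hl.2⟩
      rw [h0, Complex.ofReal_zero, zero_mul]
  rw [e]
  calc ‖∑ l ∈ Ioc (u₁ : ℤ) u₂ with lm l ≠ 0 ∧ ¬ IsCoprime l (k : ℤ), (lm l : ℂ) * ψ (l : ZMod q)‖
      ≤ ∑ l ∈ Ioc (u₁ : ℤ) u₂ with lm l ≠ 0 ∧ ¬ IsCoprime l (k : ℤ), (2 * L) := by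
        refine norm_sum_le_of_le _ fun l _ => ?_
        rw [norm_mul, Complex.norm_real, Real.norm_eq_abs]
        calc |lm l| * ‖ψ (l : ZMod q)‖ ≤ (2 * L) * 1 :=
              mul_le_mul (hlm.1 l) (ψ.norm_le_one _) (norm_nonneg _) (by linarith)
          _ = 2 * L := mul_one _
    _ = (#{l ∈ Ioc (u₁ : ℤ) u₂ | lm l ≠ 0 ∧ ¬ IsCoprime l (k : ℤ)} : ℝ) * (2 * L) := by
        rw [sum_const, nsmul_eq_mul]
    _ ≤ (5 * L * (((u₂ : ℝ) - u₁) / Z + 1)) * (2 * L) := by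
        refine mul_le_mul_of_nonneg_right ?_ (by linarith)
        rw [hL]
        rw [hL] at hlm
        exact LMN_bad x Z k _ lm hlm hZ hk hkx u₁ u₂ h12
    _ = 10 * L ^ 2 * (((u₂ : ℝ) - u₁) / Z + 1) := by ring

private theorem LMN_chi (q : ℕ) (hq : 1 ≤ q) (ψ : DirichletCharacter ℂ q) (hψ : ψ.IsPrimitive) :
    ∑ c ∈ range q, ψ (c : ZMod q) = if q = 1 then 1 else 0 := by
  by_cases h1 : q = 1
  · subst h1
    rw [if_pos rfl, sum_range_one]
    have : ((0 : ℕ) : ZMod 1) = 1 := Subsingleton.elim _ _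
    rw [this, map_one]
  · rw [if_neg h1]
    have : NeZero q := ⟨by omega⟩
    have hne : ψ ≠ 1 := by
      rintro rfl
      have : (1 : DirichletCharacter ℂ q).conductor = q := hψ
      rw [DirichletCharacter.conductor_one] at this
      exact h1 this.symm
    have h2 := MulChar.sum_eq_zero_of_ne_one hne
    rw [← h2]
    obtain ⟨n, rfl⟩ : ∃ n, q = n + 1 := ⟨q - 1, by omega⟩
    rw [Finset.sum_range]
    refine Fintype.sum_equiv (Equiv.refl _) _ _ fun i => ?_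
    congr 1
    exact Fin.cast_val_eq_self i

private theorem LMN_nu (q r : ℕ) (hq : 1 ≤ q) (ψ : DirichletCharacter ℂ q) (hψ : ψ.IsPrimitive) (u h : ℕ) (δ : ℝ)
    (hδ : 0 ≤ δ) (hN : ∀ c : ℤ, IsCoprime c (q : ℤ) →
      |∑ l ∈ Ioc (u : ℤ) (u + h) with (q : ℤ) ∣ l - c, nu r l - h / (Nat.totient q : ℝ)| ≤ δ) :
    ‖∑ l ∈ Ioc (u : ℤ) (u + h), (nu r l : ℂ) * ψ (l : ZMod q) - (if q = 1 then (h : ℂ) else 0)‖ ≤ q * δ := by
  have hq0 : (0 : ℤ) < q := by exact_mod_cast hq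
  have hmaps : ∀ l ∈ Ioc (u : ℤ) (u + h), (l % (q : ℤ)).toNat ∈ range q := by
    intro l _
    rw [mem_range]
    have ha := Int.emod_nonneg l hq0.ne'
    have hb := Int.emod_lt_of_pos l hq0
    omega
  have e0 : (if q = 1 then (h : ℂ) else 0) = ∑ c ∈ range q, ((h : ℂ) / (Nat.totient q : ℂ)) * ψ (c : ZMod q) := by
    rw [← mul_sum, LMN_chi q hq ψ hψ]
    by_cases h1 : q = 1
    · rw [if_pos h1, if_pos h1, h1]
      simp
    · rw [if_neg h1, if_neg h1, mul_zero]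
  rw [e0, ← sum_fiberwise_of_maps_to hmaps, ← sum_sub_distrib]
  have hc : ∀ c ∈ range q, ‖(∑ l ∈ Ioc (u : ℤ) (u + h) with (l % (q : ℤ)).toNat = c,
      (nu r l : ℂ) * ψ (l : ZMod q)) - ((h : ℂ) / (Nat.totient q : ℂ)) * ψ (c : ZMod q)‖ ≤ δ := by
    intro c hc
    have hcq := mem_range.1 hc
    have e1 : ∑ l ∈ Ioc (u : ℤ) (u + h) with (l % (q : ℤ)).toNat = c, (nu r l : ℂ) * ψ (l : ZMod q) =
        ((∑ l ∈ Ioc (u : ℤ) (u + h) with (q : ℤ) ∣ l - c, nu r l : ℝ) : ℂ) * ψ (c : ZMod q) := by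
      push_cast
      rw [sum_mul]
      refine sum_congr ?_ ?_
      · apply filter_congr
        intro l _
        have ha := Int.emod_nonneg l hq0.ne'
        have hb := Int.emod_lt_of_pos l hq0
        have hc0 : (c : ℤ) % q = c := Int.emod_eq_of_lt (by omega) (by omega)
        have key : (q : ℤ) ∣ l - c ↔ l % (q : ℤ) = (c : ℤ) % q := by
          rw [Int.emod_eq_emod_iff_emod_sub_eq_zero, Int.dvd_iff_emod_eq_zero]
        rw [key, hc0]
        omega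
      · intro l hl
        rw [mem_filter] at hl
        have h5 : ((l : ℤ) : ZMod q) = ((c : ℤ) : ZMod q) := by
          rw [ZMod.intCast_eq_intCast_iff_dvd_sub]
          have := hl.2
          rw [← neg_sub]
          exact (dvd_neg).2 this
        rw [h5, Int.cast_natCast]
    have e2 : ((∑ l ∈ Ioc (u : ℤ) (u + h) with (q : ℤ) ∣ l - c, nu r l : ℝ) : ℂ) * ψ (c : ZMod q) -
        ((h : ℂ) / (Nat.totient q : ℂ)) * ψ (c : ZMod q) =
        (((∑ l ∈ Ioc (u : ℤ) (u + h) with (q : ℤ) ∣ l - c, nu r l) - h / (Nat.totient q : ℝ) : ℝ) : ℂ) *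
          ψ (c : ZMod q) := by
      push_cast
      ring
    rw [e1, e2, norm_mul, Complex.norm_real, Real.norm_eq_abs]
    by_cases hcop : IsCoprime (c : ℤ) (q : ℤ)
    · calc |(∑ l ∈ Ioc (u : ℤ) (u + h) with (q : ℤ) ∣ l - c, nu r l) - h / (Nat.totient q : ℝ)| * ‖ψ (c : ZMod q)‖
          ≤ δ * 1 := mul_le_mul (hN c hcop) (ψ.norm_le_one _) (norm_nonneg _) hδ
        _ = δ := mul_one _
    · have h0 : ψ (c : ZMod q) = 0 := by
        apply ψ.map_nonunit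
        rw [ZMod.isUnit_iff_coprime]
        intro hcc
        exact hcop (Nat.isCoprime_iff_coprime.2 hcc)
      rw [h0, norm_zero, mul_zero]
      exact hδ
  calc ‖∑ c ∈ range q, ((∑ l ∈ Ioc (u : ℤ) (u + h) with (l % (q : ℤ)).toNat = c,
      (nu r l : ℂ) * ψ (l : ZMod q)) - ((h : ℂ) / (Nat.totient q : ℂ)) * ψ (c : ZMod q))‖
      ≤ ∑ c ∈ range q, δ := norm_sum_le_of_le _ hc
    _ = q * δ := by rw [sum_const, card_range, nsmul_eq_mul]

/-- prime powers -/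
private theorem LMN_pp (l : ℤ) (hl : 0 < l) : |th l - ArithmeticFunction.vonMangoldt l.toNat| =
    if l.toNat.Prime then 0 else ArithmeticFunction.vonMangoldt l.toNat := by
  unfold th
  split_ifs with h
  · rw [ArithmeticFunction.vonMangoldt_apply_prime h]
    have : (l : ℝ) = ((l.toNat : ℕ) : ℝ) := by
      have h1 : ((l.toNat : ℕ) : ℤ) = l := Int.toNat_of_nonneg hl.le
      exact_mod_cast h1.symm
    rw [this, sub_self, abs_zero]
  · rw [zero_sub, abs_neg, abs_of_nonneg ArithmeticFunction.vonMangoldt_nonneg]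

private theorem LMN_P (x : ℕ) (hx : 1 ≤ x) :
    ∑ l ∈ Ioc (x : ℤ) (2 * x), |th l - ArithmeticFunction.vonMangoldt l.toNat| ≤
      2 * Real.sqrt (2 * x) * Real.log (2 * x) := by
  have hnn : ∀ n : ℕ, (0 : ℝ) ≤ if n.Prime then 0 else ArithmeticFunction.vonMangoldt n := by
    intro n
    split_ifs
    · exact le_refl _
    · exact ArithmeticFunction.vonMangoldt_nonneg
  have hx' : (1 : ℝ) ≤ 2 * (x : ℝ) := by
    have : (1 : ℝ) ≤ x := by exact_mod_cast hx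
    linarith
  refine le_trans ?_ (Chebyshev.psi_sub_theta_le hx')
  rw [Chebyshev.psi_sub_theta_eq_sum_not_prime]
  have hfl : ⌊2 * (x : ℝ)⌋₊ = 2 * x := by
    have : (2 * (x : ℝ)) = ((2 * x : ℕ) : ℝ) := by push_cast; ring
    rw [this, Nat.floor_natCast]
  rw [hfl, Finset.sum_filter (fun n : ℕ => ¬ n.Prime)]
  have h2 : ∀ n : ℕ, (if ¬ n.Prime then ArithmeticFunction.vonMangoldt n else 0 : ℝ) =
      if n.Prime then 0 else ArithmeticFunction.vonMangoldt n := by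
    intro n
    by_cases h : n.Prime <;> simp [h]
  rw [Finset.sum_congr rfl fun n _ => h2 n]
  have h3 : ∑ l ∈ Ioc (x : ℤ) (2 * x), |th l - ArithmeticFunction.vonMangoldt l.toNat| =
      ∑ n ∈ (Ioc (x : ℤ) (2 * x)).image Int.toNat, (if n.Prime then 0 else ArithmeticFunction.vonMangoldt n : ℝ) := by
    rw [sum_image]
    · refine sum_congr rfl fun l hl => ?_
      rw [mem_Ioc] at hl
      exact LMN_pp l (by omega)
    · intro l hl l' hl' h
      have h1 := mem_Ioc.1 (mem_coe.1 hl)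
      have h2 := mem_Ioc.1 (mem_coe.1 hl')
      omega
  rw [h3]
  refine Finset.sum_le_sum_of_subset_of_nonneg ?_ fun n _ _ => hnn n
  intro n hn
  rw [mem_image] at hn
  obtain ⟨l, hl, rfl⟩ := hn
  rw [mem_Ioc] at hl ⊢
  omega

/-- sums over the cells -/
private theorem LMN_cells (hGPT : GPT_stmt) (x K : ℕ) (hx : 1 ≤ x) (hK : 1 ≤ K) (f : ℤ → ℝ) (hf : ∀ l, 0 ≤ f l) :
    ∑ i ∈ range K, ∑ l ∈ cl x K i, f l ≤ ∑ l ∈ Ioc (x : ℤ) (2 * x), f l := by
  obtain ⟨_, _, _, _, _, g6, g7, _⟩ := hGPT x K hx hK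
  rw [← sum_biUnion]
  · refine sum_le_sum_of_subset_of_nonneg ?_ fun l _ _ => hf l
    intro l hl
    rw [mem_biUnion] at hl
    obtain ⟨i, hi, hl⟩ := hl
    rw [mem_Ioc]
    exact g7 i (mem_range.1 hi) l hl
  · intro i _ j _ hij
    change Disjoint (cl x K i) (cl x K j)
    rw [disjoint_left]
    intro l hl hl'
    exact hij (g6 i j l hl hl')

private theorem LMN_len (x K : ℕ) (hx : 1 ≤ x) (hK : 1 ≤ K) (i : ℕ) :
    (x : ℝ) / K * 0.69 - 1 ≤ (gp x K (i + 1) : ℝ) - gp x K i := by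
  have hK' : (0 : ℝ) < K := by exact_mod_cast hK
  have hx' : (1 : ℝ) ≤ x := by exact_mod_cast hx
  have h1 : (gp x K i : ℝ) ≤ (x : ℝ) * (2 : ℝ) ^ ((i : ℝ) / K) := Nat.floor_le (by positivity)
  have h2 : (x : ℝ) * (2 : ℝ) ^ (((i + 1 : ℕ) : ℝ) / K) < (gp x K (i + 1) : ℝ) + 1 := Nat.lt_floor_add_one _
  have h3 : (2 : ℝ) ^ (((i + 1 : ℕ) : ℝ) / K) = (2 : ℝ) ^ ((i : ℝ) / K) * (2 : ℝ) ^ ((1 : ℝ) / K) := by
    rw [← Real.rpow_add (by norm_num)]
    congr 1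
    push_cast
    ring
  have h4 : Real.log 2 * (1 / K) + 1 ≤ (2 : ℝ) ^ ((1 : ℝ) / K) := by
    rw [Real.rpow_def_of_pos (by norm_num)]
    exact Real.add_one_le_exp _
  have h5 : (1 : ℝ) ≤ (2 : ℝ) ^ ((i : ℝ) / K) := Real.one_le_rpow (by norm_num) (by positivity)
  have hlog : (0.6931471803 : ℝ) < Real.log 2 := Real.log_two_gt_d9
  rw [h3] at h2
  set u : ℝ := (2 : ℝ) ^ ((i : ℝ) / K) with hu
  set t : ℝ := (2 : ℝ) ^ ((1 : ℝ) / K) with ht
  have h1K : (0 : ℝ) < 1 / K := by positivity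
  have h6 : 0.69 * (1 / (K : ℝ)) ≤ t - 1 := by nlinarith
  have h7 : (x : ℝ) * (0.69 * (1 / K)) ≤ x * (u * (t - 1)) := by
    refine mul_le_mul_of_nonneg_left ?_ (by linarith)
    calc 0.69 * (1 / (K : ℝ)) ≤ t - 1 := h6
      _ = 1 * (t - 1) := by ring
      _ ≤ u * (t - 1) := mul_le_mul_of_nonneg_right h5 (by nlinarith)
  have h8 : (x : ℝ) / K * 0.69 = x * (0.69 * (1 / K)) := by ring
  have h9 : (x : ℝ) * (u * (t - 1)) = x * (u * t) - x * u := by ring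
  rw [h8]
  linarith

private theorem LMN_sq4 (a b c d : ℝ) : (a + b + c + d) ^ 2 ≤ 4 * (a ^ 2 + b ^ 2 + c ^ 2 + d ^ 2) := by
  nlinarith [sq_nonneg (a - b), sq_nonneg (a - c), sq_nonneg (a - d), sq_nonneg (b - c), sq_nonneg (b - d),
    sq_nonneg (c - d)]

/-- the arithmetic at the end -/
private theorem LMN_num (x K Z E : ℕ) (L y P : ℝ) (hK : 1 ≤ K) (hL : 4 ≤ L) (hy : 1 ≤ y) (hxy : (x : ℝ) = y ^ 3)
    (hKy : (K : ℝ) ≤ y ^ 2) (hLy : 3200 * L ^ (E + 4) ≤ y) (hZ : L ^ (E + 20) ≤ Z) (hP : P ^ 2 ≤ 32 * x * L ^ 2) :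
    4 * ((x : ℝ) ^ 2 / (K * L ^ (E + 5)) + P ^ 2 + K * (3 * x / (K * L ^ (E + 10))) ^ 2 +
      K * (10 * L ^ 2 * (3 * x / K / Z + 1)) ^ 2) ≤ x ^ 2 / (K * L ^ E) := by
  have hK' : (0 : ℝ) < K := by exact_mod_cast hK
  have hL0 : 0 < L := by linarith
  have hy0 : 0 < y := by linarith
  have hx0 : (0 : ℝ) < x := by rw [hxy]; positivity
  have hQ : 0 < L ^ E := by positivity
  have hZ0 : (0 : ℝ) < Z := lt_of_lt_of_le (by positivity) hZ
  set X : ℝ := (x : ℝ) ^ 2 / (K * L ^ E) with hX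
  have hX0 : 0 < X := by positivity
  have hL1 : 1 ≤ L := by linarith
  have hL2 : (4 : ℝ) ^ 2 ≤ L ^ 2 := pow_le_pow_left₀ (by norm_num) hL 2
  have hL5 : (4 : ℝ) ^ 5 ≤ L ^ 5 := pow_le_pow_left₀ (by norm_num) hL 5
  have hL20 : (4 : ℝ) ^ 20 ≤ L ^ 20 := pow_le_pow_left₀ (by norm_num) hL 20
  have hLE : 1 ≤ L ^ E := one_le_pow₀ hL1
  -- 1
  have s1 : (x : ℝ) ^ 2 / (K * L ^ (E + 5)) ≤ X / 32 := by
    have e : (x : ℝ) ^ 2 / (K * L ^ (E + 5)) = X / L ^ 5 := by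
      rw [hX, pow_add]
      field_simp
    rw [e]
    exact div_le_div_of_nonneg_left hX0.le (by norm_num) (by linarith)
  -- 2
  have s2 : P ^ 2 ≤ X / 32 := by
    refine hP.trans ?_
    rw [hX, div_div, le_div_iff₀ (by positivity)]
    have h1 : 1024 * L ^ (E + 2) ≤ y := by
      have h2 : L ^ (E + 2) ≤ L ^ (E + 4) := pow_le_pow_right₀ hL1 (by omega)
      have h3 : 0 < L ^ (E + 4) := by positivity
      linarith
    calc 32 * (x : ℝ) * L ^ 2 * (K * L ^ E * 32) = (1024 * L ^ (E + 2)) * K * x := by ring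
      _ ≤ y * y ^ 2 * x := by
          refine mul_le_mul_of_nonneg_right ?_ hx0.le
          exact mul_le_mul h1 hKy hK'.le hy0.le
      _ = x ^ 2 := by rw [hxy]; ring
  -- 3
  have s3 : K * (3 * (x : ℝ) / (K * L ^ (E + 10))) ^ 2 ≤ X / 32 := by
    have e : K * (3 * (x : ℝ) / (K * L ^ (E + 10))) ^ 2 = X * (9 / (L ^ E * L ^ 20)) := by
      rw [hX, pow_add]
      field_simp
      ring
    rw [e, div_eq_mul_one_div X]
    refine mul_le_mul_of_nonneg_left ?_ hX0.le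
    rw [div_le_div_iff₀ (by positivity) (by norm_num)]
    nlinarith
  -- 4
  have s4 : K * (10 * L ^ 2 * (3 * (x : ℝ) / K / Z + 1)) ^ 2 ≤ X / 8 := by
    have h0 : (3 * (x : ℝ) / K / Z + 1) ^ 2 ≤ 2 * (3 * (x : ℝ) / K / Z) ^ 2 + 2 := by
      nlinarith [sq_nonneg (3 * (x : ℝ) / K / Z - 1)]
    have h1 : K * (10 * L ^ 2 * (3 * (x : ℝ) / K / Z + 1)) ^ 2 ≤
        1800 * L ^ 4 * x ^ 2 / (K * Z ^ 2) + 200 * K * L ^ 4 := by
      calc K * (10 * L ^ 2 * (3 * (x : ℝ) / K / Z + 1)) ^ 2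
          = K * (100 * L ^ 4) * (3 * (x : ℝ) / K / Z + 1) ^ 2 := by ring
        _ ≤ K * (100 * L ^ 4) * (2 * (3 * (x : ℝ) / K / Z) ^ 2 + 2) :=
            mul_le_mul_of_nonneg_left h0 (by positivity)
        _ = 1800 * L ^ 4 * x ^ 2 / (K * Z ^ 2) + 200 * K * L ^ 4 := by
            field_simp
            ring
    have h2 : 1800 * L ^ 4 * (x : ℝ) ^ 2 / (K * Z ^ 2) ≤ X / 16 := by
      have hZ2 : (L ^ (E + 20)) ^ 2 ≤ (Z : ℝ) ^ 2 := pow_le_pow_left₀ (by positivity) hZ 2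
      have e : 1800 * L ^ 4 * (x : ℝ) ^ 2 / (K * Z ^ 2) = X * (1800 * L ^ 4 * L ^ E / Z ^ 2) := by
        rw [hX]
        field_simp
      rw [e, div_eq_mul_one_div X]
      refine mul_le_mul_of_nonneg_left ?_ hX0.le
      rw [div_le_div_iff₀ (by positivity) (by norm_num)]
      have e2 : (L ^ (E + 20)) ^ 2 = L ^ E * L ^ E * L ^ 20 * L ^ 16 * L ^ 4 := by ring
      rw [e2] at hZ2
      have h16 : (1 : ℝ) ≤ L ^ 16 := one_le_pow₀ hL1
      have h3 : 1800 * L ^ 4 * L ^ E * 16 ≤ L ^ E * L ^ E * L ^ 20 * L ^ 16 * L ^ 4 := by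
        have h5 : (28800 : ℝ) ≤ L ^ E * L ^ 20 * L ^ 16 := by
          calc (28800 : ℝ) ≤ 1 * 4 ^ 20 * 1 := by norm_num
            _ ≤ L ^ E * L ^ 20 * L ^ 16 :=
              mul_le_mul (mul_le_mul hLE hL20 (by norm_num) hQ.le) h16 (by norm_num) (by positivity)
        calc 1800 * L ^ 4 * L ^ E * 16 = 28800 * (L ^ E * L ^ 4) := by ring
          _ ≤ (L ^ E * L ^ 20 * L ^ 16) * (L ^ E * L ^ 4) := mul_le_mul_of_nonneg_right h5 (by positivity)
          _ = _ := by ring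
      linarith
    have h3 : 200 * K * L ^ 4 ≤ X / 16 := by
      rw [hX, div_div, le_div_iff₀ (by positivity)]
      calc 200 * (K : ℝ) * L ^ 4 * (K * L ^ E * 16) = (3200 * L ^ (E + 4)) * (K * K) := by ring
        _ ≤ y * (y ^ 2 * y ^ 2) :=
            mul_le_mul hLy (mul_le_mul hKy hKy hK'.le (by positivity)) (by positivity) hy0.le
        _ = y ^ 5 * 1 := by ring
        _ ≤ y ^ 5 * y := mul_le_mul_of_nonneg_left hy (by positivity)
        _ = x ^ 2 := by rw [hxy]; ring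
    linarith
  linarith

private theorem LMN_ev (E : ℕ) : ∀ᶠ x : ℕ in Filter.atTop, 4 ≤ Real.log x ∧
    3200 * Real.log x ^ (E + 4) ≤ (x : ℝ) ^ (1 / 3 : ℝ) ∧ 4 ≤ (x : ℝ) ^ (1 / 12 : ℝ) := by
  have htend : Filter.Tendsto (fun x : ℕ => Real.log (x : ℝ)) Filter.atTop Filter.atTop :=
    Real.tendsto_log_atTop.comp tendsto_natCast_atTop_atTop
  have h2 : ∀ᶠ x : ℕ in Filter.atTop, 3200 * Real.log (x : ℝ) ^ (E + 4) ≤ (x : ℝ) ^ (1 / 3 : ℝ) := by
    have h := (isLittleO_log_rpow_rpow_atTop (s := (1 / 3 : ℝ)) ((E + 4 : ℕ) : ℝ) (by norm_num)).bound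
      (show (0 : ℝ) < 1 / 3200 by norm_num)
    have h' := tendsto_natCast_atTop_atTop (R := ℝ) |>.eventually h
    filter_upwards [h', htend.eventually_ge_atTop 1] with x hx h1
    rw [Real.norm_eq_abs, Real.norm_eq_abs, Real.rpow_natCast] at hx
    have h3 := (le_abs_self _).trans hx
    rw [abs_of_nonneg (by positivity)] at h3
    linarith
  have h3 : ∀ᶠ x : ℕ in Filter.atTop, 4 ≤ (x : ℝ) ^ (1 / 12 : ℝ) :=
    ((tendsto_rpow_atTop (show (0 : ℝ) < 1 / 12 by norm_num)).comp tendsto_natCast_atTop_atTop).eventually_ge_atTop 4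
  filter_upwards [htend.eventually_ge_atTop 4, h2, h3] with x a b c
  exact ⟨a, b, c⟩

theorem LMN (hPSI : PSI_stmt) (hNUI : NUI_stmt) (hGPT : GPT_stmt) (hLMA : LMA_stmt) : LMN_stmt := by
  classical
  intro η hη E
  refine ⟨E + 20, fun C₅ hC₅ => ?_⟩
  obtain ⟨x₁, hx₁⟩ := hPSI η hη (E + 5) E
  obtain ⟨x₂, hx₂⟩ := hNUI (2 * E + 10) C₅
  obtain ⟨x₃, hx₃⟩ := hLMA 0 C₅ (Nat.zero_le _)
  obtain ⟨x₄, hx₄⟩ := Filter.eventually_atTop.1 (LMN_ev E)
  refine ⟨max (max x₁ x₂) (max (max x₃ x₄) 1), fun x hx r hr1 hr2 K hK hKx => ?_⟩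
  have hxx₁ : x₁ ≤ x := le_trans (le_trans (le_max_left _ _) (le_max_left _ _)) hx
  have hxx₂ : x₂ ≤ x := le_trans (le_trans (le_max_right _ _) (le_max_left _ _)) hx
  have hxx₃ : x₃ ≤ x := le_trans (le_trans (le_trans (le_max_left _ _) (le_max_left _ _)) (le_max_right _ _)) hx
  have hxx₄ : x₄ ≤ x := le_trans (le_trans (le_trans (le_max_right _ _) (le_max_left _ _)) (le_max_right _ _)) hx
  have hx1 : 1 ≤ x := le_trans (le_trans (le_max_right _ _) (le_max_right _ _)) hx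
  obtain ⟨hL4, hLy, h12⟩ := hx₄ x hxx₄
  obtain ⟨hlam, _⟩ := hx₃ x hxx₃ r hr1 hr2
  obtain ⟨g1, g2, g3, g4, g5, g6, g7, g8⟩ := hGPT x K hx1 hK
  intro q k hq hqQ hk hkx ψ hψ
  set L : ℝ := Real.log x with hLdef
  set Z : ℕ := Zr r with hZdef
  have hL1 : 1 ≤ L := by linarith
  have hL0 : 0 < L := by linarith
  have hxr : (1 : ℝ) ≤ x := by exact_mod_cast hx1
  have hx0 : (0 : ℝ) < x := by linarith
  have hK' : (0 : ℝ) < K := by exact_mod_cast hK
  set y : ℝ := (x : ℝ) ^ (1 / 3 : ℝ) with hy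
  have hy1 : 1 ≤ y := Real.one_le_rpow hxr (by norm_num)
  have hxy : (x : ℝ) = y ^ 3 := by
    rw [hy, ← Real.rpow_natCast, ← Real.rpow_mul hx0.le]
    norm_num
  have hKy : (K : ℝ) ≤ y ^ 2 := by
    refine hKx.trans ?_
    rw [hy, ← Real.rpow_natCast, ← Real.rpow_mul hx0.le]
    exact Real.rpow_le_rpow_of_exponent_le hxr (by norm_num; linarith)
  have hKx' : (K : ℝ) ≤ x := by
    rw [hxy]
    refine hKy.trans ?_
    exact pow_le_pow_right₀ hy1 (by norm_num)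
  have hZL : L ^ (E + 20) ≤ (Z : ℝ) := (pow_le_pow_right₀ hL1 hC₅).trans hr1
  have hZ0 : (0 : ℝ) < Z := lt_of_lt_of_le (by positivity) hZL
  have hZ1 : 1 ≤ Z := by
    have : 0 < Z := by exact_mod_cast hZ0
    omega
  have hqZ : q ≤ Z := by
    have h1 : (q : ℝ) ≤ Z := hqQ.trans ((pow_le_pow_right₀ hL1 (by omega : E ≤ E + 20)).trans hZL)
    exact_mod_cast h1
  -- lengths of the cells
  have hmono : ∀ i, gp x K i ≤ gp x K (i + 1) := fun i => g3 i (i + 1) (by omega)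
  have hclcard : ∀ i, (#(cl x K i) : ℝ) = (gp x K (i + 1) : ℝ) - gp x K i := by
    intro i
    unfold cl
    rw [Int.card_Ioc]
    have h1 := hmono i
    have h2 : ((gp x K (i + 1) : ℤ) - (gp x K i : ℤ)).toNat = gp x K (i + 1) - gp x K i := by omega
    rw [h2, Nat.cast_sub h1]
  have hlen : ∀ i < K, (gp x K (i + 1) : ℝ) - gp x K i ≤ 3 * x / K := by
    intro i hi
    rw [← hclcard i]
    refine (g8 i hi).trans ?_
    have h1 : (1 : ℝ) ≤ x / K := by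
      rw [le_div_iff₀ hK']
      linarith
    have h2 : 3 * (x : ℝ) / K = 2 * x / K + x / K := by ring
    rw [h2]
    linarith
  have hlen0 : ∀ i, (0 : ℝ) ≤ (gp x K (i + 1) : ℝ) - gp x K i := by
    intro i
    have : (gp x K i : ℝ) ≤ gp x K (i + 1) := by exact_mod_cast hmono i
    linarith
  have hlenlow : ∀ i, (x : ℝ) ^ (1 / 4 : ℝ) ≤ (gp x K (i + 1) : ℝ) - gp x K i := by
    intro i
    refine le_trans ?_ (LMN_len x K hx1 hK i)
    have h1 : y ≤ x / K := by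
      rw [le_div_iff₀ hK', hxy]
      calc y * K ≤ y * y ^ 2 := mul_le_mul_of_nonneg_left hKy (by linarith)
        _ = y ^ 3 := by ring
    have h2 : y = (x : ℝ) ^ (1 / 4 : ℝ) * (x : ℝ) ^ (1 / 12 : ℝ) := by
      rw [hy, ← Real.rpow_add hx0]
      norm_num
    have h3 : (1 : ℝ) ≤ (x : ℝ) ^ (1 / 4 : ℝ) := Real.one_le_rpow hxr (by norm_num)
    have h4 : (x : ℝ) ^ (1 / 4 : ℝ) * 4 ≤ y := by
      rw [h2]
      exact mul_le_mul_of_nonneg_left h12 (by linarith)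
    nlinarith
  -- the four parts
  set A : ℕ → ℝ := fun i => ‖∑ l ∈ cl x K i, ((ArithmeticFunction.vonMangoldt l.toNat : ℂ) -
    (if q = 1 then 1 else 0)) * ψ (l : ZMod q)‖ with hA
  set Pp : ℕ → ℝ := fun i => ∑ l ∈ cl x K i, |th l - ArithmeticFunction.vonMangoldt l.toNat| with hPp
  have hAsum : ∑ i ∈ range K, A i ^ 2 ≤ x ^ 2 / (K * L ^ (E + 5)) := hx₁ x hxx₁ K hK hKx q hq hqQ ψ hψ
  set P : ℝ := 2 * Real.sqrt (2 * x) * Real.log (2 * x) with hP
  have hPpn : ∀ i, 0 ≤ Pp i := fun i => sum_nonneg fun l _ => abs_nonneg _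
  have hPsum : ∑ i ∈ range K, Pp i ≤ P :=
    (LMN_cells hGPT x K hx1 hK _ fun l => abs_nonneg _).trans (LMN_P x hx1)
  have hPsq : ∑ i ∈ range K, Pp i ^ 2 ≤ P ^ 2 := by
    have h1 : ∑ i ∈ range K, Pp i ^ 2 ≤ (∑ i ∈ range K, Pp i) ^ 2 := by
      rw [sq, sum_mul_sum]
      refine sum_le_sum fun i hi => ?_
      rw [sq]
      exact single_le_sum (f := fun j => Pp i * Pp j) (fun j _ => mul_nonneg (hPpn i) (hPpn j)) hi
    refine h1.trans (pow_le_pow_left₀ (sum_nonneg fun i _ => hPpn i) hPsum 2)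
  have hP2 : P ^ 2 ≤ 32 * x * L ^ 2 := by
    have h1 : Real.log (2 * (x : ℝ)) = Real.log 2 + L := Real.log_mul (by norm_num) hx0.ne'
    have h2 : Real.log 2 < 0.6931471808 := Real.log_two_lt_d9
    have h3 : 0 ≤ Real.log 2 := Real.log_nonneg (by norm_num)
    have h4 : (Real.log (2 * (x : ℝ))) ^ 2 ≤ (2 * L) ^ 2 := by
      rw [h1]
      exact pow_le_pow_left₀ (by linarith) (by linarith) 2
    rw [hP, mul_pow, mul_pow, Real.sq_sqrt (by linarith)]
    calc (2 : ℝ) ^ 2 * (2 * x) * Real.log (2 * x) ^ 2 ≤ (2 : ℝ) ^ 2 * (2 * x) * (2 * L) ^ 2 :=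
          mul_le_mul_of_nonneg_left h4 (by positivity)
      _ = 32 * x * L ^ 2 := by ring
  -- one cell
  have hcell : ∀ i ∈ range K, ‖∑ l ∈ cl x K i with IsCoprime l (k : ℤ), (lam x r l : ℂ) * ψ (l : ZMod q)‖ ≤
      A i + Pp i + 3 * x / (K * L ^ (E + 10)) + 10 * L ^ 2 * (3 * x / K / Z + 1) := by
    intro i hi
    have hiK := mem_range.1 hi
    have hsplit : ∑ l ∈ cl x K i with IsCoprime l (k : ℤ), (lam x r l : ℂ) * ψ (l : ZMod q) =
        ∑ l ∈ cl x K i, (lam x r l : ℂ) * ψ (l : ZMod q) -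
          ∑ l ∈ cl x K i with ¬ IsCoprime l (k : ℤ), (lam x r l : ℂ) * ψ (l : ZMod q) := by
      rw [eq_sub_iff_add_eq]
      exact sum_filter_add_sum_filter_not _ _ _
    have hB : ‖∑ l ∈ cl x K i with ¬ IsCoprime l (k : ℤ), (lam x r l : ℂ) * ψ (l : ZMod q)‖ ≤
        10 * L ^ 2 * (3 * x / K / Z + 1) := by
      refine (LMN_B x Z k q L hLdef (lam x r) hlam hZ1 hk hkx ψ _ _ (hmono i)).trans ?_
      refine mul_le_mul_of_nonneg_left ?_ (by positivity)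
      have := div_le_div_of_nonneg_right (hlen i hiK) hZ0.le
      linarith
    have hdec : ∑ l ∈ cl x K i, (lam x r l : ℂ) * ψ (l : ZMod q) =
        (∑ l ∈ cl x K i, ((ArithmeticFunction.vonMangoldt l.toNat : ℂ) - (if q = 1 then 1 else 0)) * ψ (l : ZMod q) +
        ∑ l ∈ cl x K i, ((th l - ArithmeticFunction.vonMangoldt l.toNat : ℝ) : ℂ) * ψ (l : ZMod q)) -
        (∑ l ∈ cl x K i, (nu r l : ℂ) * ψ (l : ZMod q) - ∑ l ∈ cl x K i, (if q = 1 then 1 else 0) * ψ (l : ZMod q)) := by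
      rw [← sum_add_distrib, ← sum_sub_distrib, ← sum_sub_distrib]
      refine sum_congr rfl fun l hl => ?_
      have h1 := g7 i hiK l hl
      have h2 : lam x r l = th l - nu r l := by
        unfold lam
        rw [if_pos h1]
      rw [h2]
      push_cast
      ring
    have hPi : ‖∑ l ∈ cl x K i, ((th l - ArithmeticFunction.vonMangoldt l.toNat : ℝ) : ℂ) * ψ (l : ZMod q)‖ ≤ Pp i := by
      refine norm_sum_le_of_le _ fun l _ => ?_
      rw [norm_mul, Complex.norm_real, Real.norm_eq_abs]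
      calc |th l - ArithmeticFunction.vonMangoldt l.toNat| * ‖ψ (l : ZMod q)‖
          ≤ |th l - ArithmeticFunction.vonMangoldt l.toNat| * 1 :=
            mul_le_mul_of_nonneg_left (ψ.norm_le_one _) (abs_nonneg _)
        _ = _ := mul_one _
    have hNi : ‖∑ l ∈ cl x K i, (nu r l : ℂ) * ψ (l : ZMod q) -
        ∑ l ∈ cl x K i, (if q = 1 then 1 else 0) * ψ (l : ZMod q)‖ ≤ 3 * x / (K * L ^ (E + 10)) := by
      set u : ℕ := gp x K i with hu
      set h : ℕ := gp x K (i + 1) - gp x K i with hh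
      have huh : gp x K (i + 1) = u + h := by
        have := hmono i
        omega
      have huh' : (h : ℝ) = (gp x K (i + 1) : ℝ) - gp x K i := by
        rw [huh]
        push_cast
        ring
      have hcl : cl x K i = Ioc (u : ℤ) (u + h) := by
        unfold cl
        rw [huh]
        push_cast
        rfl
      have hle : u + h ≤ 4 * x := by
        rw [← huh]
        have := g3 (i + 1) K (by omega)
        omega
      have hlow : (x : ℝ) ^ (1 / 4 : ℝ) ≤ h := by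
        rw [huh']
        exact hlenlow i
      have hδ : 0 ≤ (h : ℝ) / L ^ (2 * E + 10) := by positivity
      have hmain := LMN_nu q r hq ψ hψ u h _ hδ
        (fun c hc => (hx₂ x hxx₂ r hr2 q hq hqZ c u h hle hlow).1 hc)
      have hone : ∑ l ∈ cl x K i, (if q = 1 then 1 else 0) * ψ (l : ZMod q) = (if q = 1 then (h : ℂ) else 0) := by
        by_cases h1 : q = 1
        · subst h1
          rw [if_pos rfl, if_pos rfl]
          have h2 : ∀ l ∈ cl x K i, (1 : ℂ) * ψ ((l : ℤ) : ZMod 1) = 1 := by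
            intro l _
            have h3 : ((l : ℤ) : ZMod 1) = 1 := Subsingleton.elim _ _
            rw [h3, map_one, one_mul]
          rw [sum_congr rfl h2, sum_const, nsmul_eq_mul, mul_one, hcl, Int.card_Ioc]
          have h4 : ((u : ℤ) + h - u).toNat = h := by omega
          rw [h4]
        · rw [if_neg h1, if_neg h1]
          exact sum_eq_zero fun l _ => zero_mul _
      rw [hone, hcl]
      refine hmain.trans ?_
      have h5 : (h : ℝ) ≤ 3 * x / K := by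
        rw [huh']
        exact hlen i hiK
      calc (q : ℝ) * (h / L ^ (2 * E + 10)) ≤ L ^ E * (3 * x / K / L ^ (2 * E + 10)) := by
            refine mul_le_mul hqQ ?_ hδ (by positivity)
            exact div_le_div_of_nonneg_right h5 (by positivity)
        _ = 3 * x / (K * L ^ (E + 10)) := by
            have e : L ^ (2 * E + 10) = L ^ E * L ^ (E + 10) := by
              rw [← pow_add]
              congr 1
              ring
            rw [e]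
            field_simp
    rw [hsplit, hdec]
    refine (norm_sub_le _ _).trans ?_
    refine add_le_add ?_ hB
    refine (norm_sub_le _ _).trans ?_
    refine add_le_add ?_ hNi
    exact (norm_add_le _ _).trans (add_le_add (le_refl _) hPi)
  have hfin : ∑ i ∈ range K, ‖∑ l ∈ cl x K i with IsCoprime l (k : ℤ), (lam x r l : ℂ) * ψ (l : ZMod q)‖ ^ 2 ≤
      4 * ((x : ℝ) ^ 2 / (K * L ^ (E + 5)) + P ^ 2 + K * (3 * x / (K * L ^ (E + 10))) ^ 2 +
        K * (10 * L ^ 2 * (3 * x / K / Z + 1)) ^ 2) := by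
    calc ∑ i ∈ range K, ‖∑ l ∈ cl x K i with IsCoprime l (k : ℤ), (lam x r l : ℂ) * ψ (l : ZMod q)‖ ^ 2
        ≤ ∑ i ∈ range K, 4 * (A i ^ 2 + Pp i ^ 2 + (3 * x / (K * L ^ (E + 10))) ^ 2 +
          (10 * L ^ 2 * (3 * x / K / Z + 1)) ^ 2) := by
          refine sum_le_sum fun i hi => ?_
          exact (pow_le_pow_left₀ (norm_nonneg _) (hcell i hi) 2).trans (LMN_sq4 _ _ _ _)
      _ = 4 * (∑ i ∈ range K, A i ^ 2 + ∑ i ∈ range K, Pp i ^ 2 + K * (3 * x / (K * L ^ (E + 10))) ^ 2 +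
          K * (10 * L ^ 2 * (3 * x / K / Z + 1)) ^ 2) := by
          rw [← mul_sum, sum_add_distrib, sum_add_distrib, sum_add_distrib, sum_const, sum_const, card_range,
            nsmul_eq_mul, nsmul_eq_mul]
      _ ≤ _ := by
          refine mul_le_mul_of_nonneg_left ?_ (by norm_num)
          linarith
  exact hfin.trans (LMN_num x K Z E L y P hK hL4 hy1 hxy hKy hLy hZL hP2)

end Pool.Agent.FJ
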