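import Pool.Agent.helper94.FJ.SpecP

/-!
# Project fj (MP_ad8ced_nt), row PDB: all variables bounded
-/

set_option autoImplicit false

namespace Pool.Agent.FJ

open Finset ArithmeticFunction MeasureTheory
open Pool.Agent.CH (nit DPb)
open Pool.Agent.SK (tr0 Th muz sml bgf zN uu)
open Pool.Agent.helper85.BVP (tau)

private lemma PDB_nit_prod {R : ℕ} (t : ℝ) (m : Fin R → ℕ) (hm : ∀ i, 1 ≤ m i) :
    nit t ((∏ i, m i : ℕ) : ℝ) = ∏ i, nit t (m i : ℝ) := by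
  unfold nit
  rw [Nat.cast_prod, Real.log_prod, ← Complex.exp_sum]
  · congr 1
    rw [mul_sum]
    push_cast
    rw [sum_mul]
  · intro i _
    have := hm i
    exact_mod_cast (by omega : m i ≠ 0)

private lemma PDB_poly {R : ℕ} (e : Fin R → ℕ) (c : Fin R → ℕ → ℂ) (t : ℝ) :
    ∑ m ∈ Fintype.piFinset (fun k : Fin R => Ico (2 ^ e k) (2 ^ (e k + 1))),
      (∏ k, c k (m k)) * nit t ((∏ k, m k : ℕ) : ℝ) = ∏ k, DPb (2 ^ e k) (c k) t := by
  unfold DPb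
  rw [Finset.prod_univ_sum]
  have hset : (fun k : Fin R => Ico (2 ^ e k) (2 * 2 ^ e k)) =
      fun k : Fin R => Ico (2 ^ e k) (2 ^ (e k + 1)) := by
    funext k
    rw [pow_succ, mul_comm 2]
  rw [hset]
  refine sum_congr rfl fun m hm => ?_
  rw [Fintype.mem_piFinset] at hm
  rw [PDB_nit_prod t m (fun i => (Nat.one_le_two_pow).trans (mem_Ico.1 (hm i)).1), ← prod_mul_distrib]

/-- the support -/
private lemma PDB_supp (ε : ℝ) (hε : 0 < ε) (N : ℕ) (hN : 8 ≤ N) (a b : Fin 0 → ℝ) (i : ℕ)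
    (k : Fin (0 + 2 * i)) (m : ℕ) (hm2 : N ^ 2 < m) :
    uu N (zN N) (XPc ε N) a b i k m = 0 := by
  have hN1 : (1 : ℝ) ≤ N := by exact_mod_cast (by omega : 1 ≤ N)
  have hN8 : (8 : ℝ) ≤ N := by exact_mod_cast hN
  have hm3 : (N : ℝ) ^ 2 < m := by exact_mod_cast hm2
  have hX : ((XPc ε N : ℕ) : ℝ) ≤ (N : ℝ) ^ 2 := by
    have h5 : ((XPc ε N : ℕ) : ℝ) ≤ (N : ℝ) ^ (2 - 2 * ε) := Nat.floor_le (by positivity)
    have h6 : (N : ℝ) ^ (2 - 2 * ε) ≤ (N : ℝ) ^ (2 : ℝ) :=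
      Real.rpow_le_rpow_of_exponent_le hN1 (by linarith)
    rw [Real.rpow_two] at h6
    linarith
  unfold uu
  split_ifs with h1 h2 h3
  · exact absurd h1 (Nat.not_lt_zero _)
  · show (if m ≤ zN N then ((moebius m : ℤ) : ℝ) else 0) = 0
    rw [if_neg]
    intro h4
    have h5 : ((zN N : ℕ) : ℝ) ≤ 4 * (N : ℝ) ^ (3 / 7 : ℝ) := Nat.floor_le (by positivity)
    have h6 : (N : ℝ) ^ (3 / 7 : ℝ) ≤ (N : ℝ) ^ (1 : ℝ) :=
      Real.rpow_le_rpow_of_exponent_le hN1 (by norm_num)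
    rw [Real.rpow_one] at h6
    have : (m : ℝ) ≤ zN N := by exact_mod_cast h4
    nlinarith
  · show (if 1 ≤ m ∧ m ≤ XPc ε N then Real.log m ^ 0 else 0) = 0
    rw [if_neg]
    rintro ⟨-, h4⟩
    have : (m : ℝ) ≤ XPc ε N := by exact_mod_cast h4
    linarith
  · show (if 1 ≤ m ∧ m ≤ XPc ε N then Real.log m ^ 1 else 0) = 0
    rw [if_neg]
    rintro ⟨-, h4⟩
    have : (m : ℝ) ≤ XPc ε N := by exact_mod_cast h4
    linarith

private lemma PDB_kbw (δ δ' y : ℝ) (h : δ ≤ δ') (hy : δ' / 2 < |y|) : kbw δ δ' y = 0 := by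
  unfold kbw bxw
  rw [if_neg (by linarith), if_neg (by linarith)]
  ring

theorem PDB (hPFB : PFB_stmt) (hPBK : PBK_stmt) (hPRD : Pool.Agent.SK.PRD_stmt) : PDB_stmt := by
  classical
  intro ε hε hε1 A Bq
  obtain ⟨B₀, hB₀⟩ := hPBK ε hε hε1 (A + 61) Bq
  refine ⟨max B₀ 1, fun B hB => ?_⟩
  obtain ⟨N₁, hN₁⟩ := hB₀ B ((le_max_left _ _).trans hB)
  have hB1 : 1 ≤ B := (le_max_right _ _).trans hB
  have hev : ∀ᶠ N : ℕ in Filter.atTop, 10 ≤ Real.log (N : ℝ) :=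
    (Real.tendsto_log_atTop.comp tendsto_natCast_atTop_atTop).eventually_ge_atTop 10
  obtain ⟨N₂, hN₂⟩ := Filter.eventually_atTop.1 hev
  refine ⟨max N₁ (max N₂ 8), fun N hN δ hδ1 hδ2 q hq hqB χ a b i hi => ?_⟩
  have hNN₁ : N₁ ≤ N := by omega
  have hNN₂ : N₂ ≤ N := by omega
  have hN8 : 8 ≤ N := by omega
  have hN0 : (8 : ℝ) ≤ N := by exact_mod_cast hN8
  have hNpos : (0 : ℝ) < N := by linarith
  have hPB := hN₁ N hNN₁ δ hδ1 hδ2 q hq hqB χ a b i hi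
  have hL10 : 10 ≤ Real.log (N : ℝ) := hN₂ N hNN₂
  have hδ0 : 0 < δ := lt_of_lt_of_le (Real.rpow_pos_of_pos hNpos _) hδ1
  set L : ℝ := Real.log N with hL
  have hLpos : 0 < L := by linarith
  set δ' : ℝ := 1 / L ^ B with hδ'
  have hδ'1 : δ' ≤ 1 / 10 := by
    rw [hδ', div_le_div_iff₀ (by positivity) (by norm_num)]
    have : L ^ 1 ≤ L ^ B := pow_le_pow_right₀ (by linarith) hB1
    rw [pow_one] at this
    linarith
  rw [mem_Icc] at hi
  set K : ℕ := Nat.log 2 (N ^ 2) + 1 with hK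
  have hN2 : N ^ 2 ≠ 0 := by positivity
  have hK1 : N ^ 2 < 2 ^ K := Nat.lt_pow_succ_log_self (by norm_num) _
  have hK2 : 2 ^ K ≤ 2 * N ^ 2 := by
    rw [hK, pow_succ, mul_comm]
    exact Nat.mul_le_mul_left 2 (Nat.pow_log_le_self 2 hN2)
  have hlog2 : Real.log 2 < 0.6931471808 := Real.log_two_lt_d9
  have hlog2' : 0.6931471803 < Real.log 2 := Real.log_two_gt_d9
  have hl2N : Real.log (2 * (N : ℝ) ^ 2) = Real.log 2 + 2 * L := by
    rw [Real.log_mul (by norm_num) (by positivity), Real.log_pow]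
    push_cast
    rfl
  have hKL : (K : ℝ) ≤ L ^ 2 := by
    have h5 : (2 : ℝ) ^ K ≤ 2 * (N : ℝ) ^ 2 := by exact_mod_cast hK2
    have h6 : Real.log ((2 : ℝ) ^ K) ≤ Real.log (2 * (N : ℝ) ^ 2) := Real.log_le_log (by positivity) h5
    rw [Real.log_pow, hl2N] at h6
    have h7 : (0 : ℝ) ≤ K := Nat.cast_nonneg K
    nlinarith
  have hlog8 : Real.log 8 = 3 * Real.log 2 := by
    rw [show (8 : ℝ) = 2 ^ 3 by norm_num, Real.log_pow]; norm_num
  -- vanishing of the kernel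
  have hgbig : ∀ v : ℝ, |v - 3 * L| ≤ 1 → ∀ j : ℕ, 8 * N ^ 3 < j → kbw δ δ' (Real.log j - v) = 0 := by
    intro v hv j hj
    have h5 : Real.log (8 * (N : ℝ) ^ 3) ≤ Real.log j := by
      refine Real.log_le_log (by positivity) ?_
      exact_mod_cast hj.le
    rw [Real.log_mul (by norm_num) (by positivity), Real.log_pow, hlog8] at h5
    push_cast at h5
    have h6 := (abs_le.1 hv).2
    refine PDB_kbw δ δ' _ hδ2 ?_
    rw [lt_abs]
    left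
    linarith
  have hgsmall : ∀ v : ℝ, |v - 3 * L| ≤ 1 → ∀ j : ℕ, 1 ≤ j → 16 * j < N ^ 3 →
      kbw δ δ' (Real.log j - v) = 0 := by
    intro v hv j hj1 hj
    have hj0 : (0 : ℝ) < j := by exact_mod_cast hj1
    have h5 : Real.log (8 * (j : ℝ)) ≤ Real.log ((N : ℝ) ^ 3) := by
      refine Real.log_le_log (by positivity) ?_
      have h8 : 8 * j ≤ N ^ 3 := by omega
      exact_mod_cast h8
    rw [Real.log_mul (by norm_num) (by positivity), Real.log_pow, hlog8] at h5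
    push_cast at h5
    have h6 := (abs_le.1 hv).1
    refine PDB_kbw δ δ' _ hδ2 ?_
    rw [lt_abs]
    right
    linarith
  -- change of the range
  have hrange : ∀ v : ℝ, |v - 3 * L| ≤ 1 →
      ∑ m ∈ Ioc 0 (64 * N ^ 3), (((∏ k, uu N (zN N) (XPc ε N) a b i k) m : ℝ) : ℂ) * χ m *
        ((kbw δ δ' (Real.log m - v) : ℝ) : ℂ) =
      ∑ m ∈ Ioc 0 (2 ^ (K * (0 + 2 * i))), (((∏ k, uu N (zN N) (XPc ε N) a b i k) m : ℝ) : ℂ) *
        (χ m * ((kbw δ δ' (Real.log m - v) : ℝ) : ℂ)) := by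
    intro v hv
    have hz : ∀ m : ℕ, m ∉ Ioc 0 (8 * N ^ 3) → 0 < m →
        (((∏ k, uu N (zN N) (XPc ε N) a b i k) m : ℝ) : ℂ) * χ m *
          ((kbw δ δ' (Real.log m - v) : ℝ) : ℂ) = 0 := by
      intro m hm hm0
      rw [mem_Ioc] at hm
      rw [hgbig v hv m (by omega), Complex.ofReal_zero, mul_zero]
    have e1 : ∑ m ∈ Ioc 0 (8 * N ^ 3), (((∏ k, uu N (zN N) (XPc ε N) a b i k) m : ℝ) : ℂ) * χ m *
          ((kbw δ δ' (Real.log m - v) : ℝ) : ℂ) =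
        ∑ m ∈ Ioc 0 (64 * N ^ 3), (((∏ k, uu N (zN N) (XPc ε N) a b i k) m : ℝ) : ℂ) * χ m *
          ((kbw δ δ' (Real.log m - v) : ℝ) : ℂ) := by
      refine sum_subset (fun m hm => ?_) (fun m hm hm2 => hz m hm2 (mem_Ioc.1 hm).1)
      rw [mem_Ioc] at hm ⊢
      omega
    have e2 : ∑ m ∈ Ioc 0 (8 * N ^ 3), (((∏ k, uu N (zN N) (XPc ε N) a b i k) m : ℝ) : ℂ) * χ m *
          ((kbw δ δ' (Real.log m - v) : ℝ) : ℂ) =
        ∑ m ∈ Ioc 0 (2 ^ (K * (0 + 2 * i))),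
          (((∏ k, uu N (zN N) (XPc ε N) a b i k) m : ℝ) : ℂ) * χ m *
            ((kbw δ δ' (Real.log m - v) : ℝ) : ℂ) := by
      refine sum_subset (fun m hm => ?_) (fun m hm hm2 => hz m hm2 (mem_Ioc.1 hm).1)
      rw [mem_Ioc] at hm ⊢
      refine ⟨hm.1, hm.2.trans ?_⟩
      have h5 : 2 ^ (K * 2) ≤ 2 ^ (K * (0 + 2 * i)) :=
        Nat.pow_le_pow_right (by norm_num) (Nat.mul_le_mul_left K (by omega))
      refine le_trans ?_ h5
      rw [pow_mul]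
      calc 8 * N ^ 3 ≤ N * N ^ 3 := Nat.mul_le_mul_right _ hN8
        _ = (N ^ 2) ^ 2 := by ring
        _ ≤ (2 ^ K) ^ 2 := Nat.pow_le_pow_left hK1.le 2
    rw [← e1, e2]
    exact sum_congr rfl fun m _ => mul_assoc _ _ _
  -- the blocks
  set c : Fin (0 + 2 * i) → ℕ → ℂ := fun k m => ((uu N (zN N) (XPc ε N) a b i k m : ℝ) : ℂ) * χ m with hc
  set X : (Fin (0 + 2 * i) → ℕ) → ℝ → ℂ := fun e v =>
    ∑ m ∈ Fintype.piFinset (fun k : Fin (0 + 2 * i) => Ico (2 ^ e k) (2 ^ (e k + 1))),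
      (∏ k, c k (m k)) * ((kbw δ δ' (Real.log ((∏ k, m k : ℕ) : ℝ) - v) : ℝ) : ℂ) with hX
  have hsplit : ∀ v : ℝ, |v - 3 * L| ≤ 1 →
      ∑ m ∈ Ioc 0 (64 * N ^ 3), (((∏ k, uu N (zN N) (XPc ε N) a b i k) m : ℝ) : ℂ) * χ m *
        ((kbw δ δ' (Real.log m - v) : ℝ) : ℂ) =
      ∑ e ∈ Fintype.piFinset (fun _ : Fin (0 + 2 * i) => range K), X e v := by
    intro v hv
    have hP := hPRD (0 + 2 * i) K (fun k => uu N (zN N) (XPc ε N) a b i k)
      (fun k m hm => PDB_supp ε hε N hN8 a b i k m (lt_of_lt_of_le hK1 hm))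
      (fun m => χ m * ((kbw δ δ' (Real.log m - v) : ℝ) : ℂ))
    rw [hrange v hv, hP]
    refine sum_congr rfl fun e _ => sum_congr rfl fun m _ => ?_
    rw [← mul_assoc]
    congr 1
    rw [hc, prod_mul_distrib]
    congr 1
    push_cast
    rw [map_prod]
  set E := (Fintype.piFinset (fun _ : Fin (0 + 2 * i) => range K)).filter
    (fun e => ∏ k, 2 ^ e k ≤ 8 * N ^ 3 ∧ N ^ 3 ≤ 2 ^ (2 * i + 4) * ∏ k, 2 ^ e k) with hE
  have hsplit2 : ∀ v : ℝ, |v - 3 * L| ≤ 1 →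
      ∑ m ∈ Ioc 0 (64 * N ^ 3), (((∏ k, uu N (zN N) (XPc ε N) a b i k) m : ℝ) : ℂ) * χ m *
        ((kbw δ δ' (Real.log m - v) : ℝ) : ℂ) = ∑ e ∈ E, X e v := by
    intro v hv
    rw [hsplit v hv]
    symm
    refine sum_subset (filter_subset _ _) fun e he he2 => ?_
    rw [hE, mem_filter, not_and] at he2
    have he3 := he2 he
    by_cases h8 : ∏ k, 2 ^ e k ≤ 8 * N ^ 3
    · have h9 : ¬ (N ^ 3 ≤ 2 ^ (2 * i + 4) * ∏ k, 2 ^ e k) := fun h => he3 ⟨h8, h⟩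
      rw [hX]
      refine sum_eq_zero fun m hm => ?_
      rw [Fintype.mem_piFinset] at hm
      have hm1 : ∀ k, 1 ≤ m k := fun k => Nat.one_le_two_pow.trans (mem_Ico.1 (hm k)).1
      have e0 : (2 : ℕ) ^ (0 + 2 * i) = 2 ^ (2 * i) := by rw [zero_add]
      have h10 : ∏ k, m k ≤ 2 ^ (2 * i) * ∏ k, 2 ^ e k := by
        calc ∏ k, m k ≤ ∏ k : Fin (0 + 2 * i), (2 * 2 ^ e k) := by
              refine prod_le_prod' fun k _ => ?_
              have := (mem_Ico.1 (hm k)).2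
              rw [pow_succ] at this
              omega
          _ = 2 ^ (0 + 2 * i) * ∏ k, 2 ^ e k := by rw [prod_mul_distrib, prod_const, card_univ, Fintype.card_fin]
          _ = _ := by rw [e0]
      rw [hgsmall v hv _ (Nat.succ_le_of_lt (prod_pos fun k _ => hm1 k)), Complex.ofReal_zero, mul_zero]
      push Not at h9
      calc 16 * ∏ k, m k ≤ 16 * (2 ^ (2 * i) * ∏ k, 2 ^ e k) := Nat.mul_le_mul_left 16 h10
        _ = 2 ^ (2 * i + 4) * ∏ k, 2 ^ e k := by rw [pow_add]; ring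
        _ < N ^ 3 := h9
    · rw [hX]
      refine sum_eq_zero fun m hm => ?_
      rw [Fintype.mem_piFinset] at hm
      push Not at h8
      rw [hgbig v hv, Complex.ofReal_zero, mul_zero]
      exact h8.trans_le (prod_le_prod' fun k _ => (mem_Ico.1 (hm k)).1)
  -- one block
  have hblock : ∀ e ∈ E, Integrable (fun v : ℝ => ‖X e v‖ ^ 2) ∧
      ∫ v : ℝ, ‖X e v‖ ^ 2 ≤ δ ^ 2 * (N : ℝ) ^ 6 / L ^ (A + 61) := by
    intro e he
    rw [hE, mem_filter] at he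
    obtain ⟨-, h8, h9⟩ := he
    have h := hPFB δ δ' hδ0 hδ2 (by linarith) (Fin (0 + 2 * i) → ℕ)
      (Fintype.piFinset (fun k : Fin (0 + 2 * i) => Ico (2 ^ e k) (2 ^ (e k + 1))))
      (fun m => ∏ k, m k) (fun m => ∏ k, c k (m k)) (fun m hm => by
        rw [Fintype.mem_piFinset] at hm
        exact Nat.succ_le_of_lt (prod_pos fun k _ => Nat.one_le_two_pow.trans (mem_Ico.1 (hm k)).1))
    obtain ⟨h1, -, h3⟩ := h
    refine ⟨h1, h3.trans ?_⟩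
    simp_rw [PDB_poly e c]
    exact hPB e h9 h8
  have hcardE : (#E : ℝ) ≤ L ^ 28 := by
    have h1 : #E ≤ #(Fintype.piFinset (fun _ : Fin (0 + 2 * i) => range K)) := card_filter_le _ _
    rw [Fintype.card_piFinset, prod_const, card_univ, Fintype.card_fin, card_range] at h1
    calc (#E : ℝ) ≤ (K : ℝ) ^ (0 + 2 * i) := by exact_mod_cast h1
      _ ≤ (L ^ 2) ^ (0 + 2 * i) := pow_le_pow_left₀ (Nat.cast_nonneg K) hKL _
      _ = L ^ (2 * (0 + 2 * i)) := by rw [← pow_mul]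
      _ ≤ _ := pow_le_pow_right₀ (by linarith) (by omega)
  have hGint : Integrable (fun v : ℝ => (#E : ℝ) * ∑ e ∈ E, ‖X e v‖ ^ 2) :=
    (integrable_finsetSum E fun e he => (hblock e he).1).const_mul _
  rw [intervalIntegral.integral_of_le (by linarith)]
  calc ∫ v in Set.Ioc (3 * L - 1) (3 * L + 1), ‖∑ m ∈ Ioc 0 (64 * N ^ 3),
        (((∏ k, uu N (zN N) (XPc ε N) a b i k) m : ℝ) : ℂ) * χ m *
          ((kbw δ δ' (Real.log m - v) : ℝ) : ℂ)‖ ^ 2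
      ≤ ∫ v in Set.Ioc (3 * L - 1) (3 * L + 1), (#E : ℝ) * ∑ e ∈ E, ‖X e v‖ ^ 2 := by
        refine integral_mono_of_nonneg (Filter.Eventually.of_forall fun v => by positivity)
          hGint.integrableOn ?_
        refine (ae_restrict_iff' measurableSet_Ioc).2 (Filter.Eventually.of_forall fun v hv => ?_)
        have hv1 : |v - 3 * L| ≤ 1 := by
          rw [abs_le]
          constructor <;> linarith [hv.1, hv.2]
        show ‖_‖ ^ 2 ≤ _
        rw [hsplit2 v hv1]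
        calc ‖∑ e ∈ E, X e v‖ ^ 2 ≤ (∑ e ∈ E, ‖X e v‖) ^ 2 :=
              pow_le_pow_left₀ (norm_nonneg _) (norm_sum_le _ _) 2
          _ ≤ (#E : ℝ) * ∑ e ∈ E, ‖X e v‖ ^ 2 := sq_sum_le_card_mul_sum_sq
    _ ≤ ∫ v : ℝ, (#E : ℝ) * ∑ e ∈ E, ‖X e v‖ ^ 2 :=
        setIntegral_le_integral hGint (Filter.Eventually.of_forall fun v => by positivity)
    _ = (#E : ℝ) * ∑ e ∈ E, ∫ v : ℝ, ‖X e v‖ ^ 2 := by
        rw [integral_const_mul, integral_finsetSum E fun e he => (hblock e he).1]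
    _ ≤ (#E : ℝ) * ∑ _e ∈ E, δ ^ 2 * (N : ℝ) ^ 6 / L ^ (A + 61) :=
        mul_le_mul_of_nonneg_left (sum_le_sum fun e he => (hblock e he).2) (Nat.cast_nonneg _)
    _ = (#E : ℝ) ^ 2 * (δ ^ 2 * (N : ℝ) ^ 6 / L ^ (A + 61)) := by
        rw [sum_const, nsmul_eq_mul]; ring
    _ ≤ (L ^ 28) ^ 2 * (δ ^ 2 * (N : ℝ) ^ 6 / L ^ (A + 61)) :=
        mul_le_mul_of_nonneg_right (pow_le_pow_left₀ (Nat.cast_nonneg _) hcardE 2) (by positivity)
    _ = δ ^ 2 * (N : ℝ) ^ 6 / L ^ A * (L ^ 56 / L ^ 61) := by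
        rw [pow_add]; field_simp
    _ ≤ δ ^ 2 * (N : ℝ) ^ 6 / L ^ A * 1 := by
        refine mul_le_mul_of_nonneg_left ?_ (by positivity)
        rw [div_le_one (by positivity)]
        exact pow_le_pow_right₀ (by linarith) (by norm_num)
    _ = _ := mul_one _

end Pool.Agent.FJ
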