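import Pool.Agent.helper95.FJ.SpecC

/-! REN: relevance. -/

set_option autoImplicit false

namespace Pool.Agent.FJ

open Finset Pool.Agent.FI

private theorem REN_e1 (z z' w : ℤ × ℤ) : dl z z' * N8 w = lc z w * ac z' w - lc z' w * ac z w := by
  unfold dl N8 lc ac; ring

private theorem REN_e2 (z w : ℤ × ℤ) : N8 z * N8 w = ac z w ^ 2 - 8 * lc z w ^ 2 := by
  unfold N8 lc ac; ring

private theorem REN_e3 (z z' w : ℤ × ℤ) : dl z z' * ac z w = sp z z' * lc z w - N8 z * lc z' w := by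
  unfold dl N8 lc ac sp; ring

private theorem REN_nn {N : ℕ} {z : ℤ × ℤ} (hz : z ∈ ZD N) : |N8 z| ≤ 2 * (N : ℤ) := by
  simp only [ZD, FF, mem_filter] at hz
  have h2 : ((nn z : ℕ) : ℤ) ≤ ((2 * N : ℕ) : ℤ) := by exact_mod_cast hz.1.2.2
  unfold nn at h2
  rw [Int.natCast_natAbs] at h2
  push_cast at h2
  exact h2

private theorem REN_one {x N A : ℕ} (hx : 1 ≤ x) (hAx : A ≤ x) {z z' w : ℤ × ℤ} (hz : z ∈ ZD N)
    (h1 : (x : ℤ) < lc z w) (h1' : lc z w ≤ 2 * x) (h2 : (x : ℤ) < lc z' w) (h2' : lc z' w ≤ 2 * x)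
    (h3 : 0 < ac z w) (h3' : ac z w ≤ A) (h4 : 0 < ac z' w) (h4' : ac z' w ≤ A) :
    x * (dl z z').natAbs ≤ N * A := by
  have hx' : (1 : ℤ) ≤ x := by exact_mod_cast hx
  have hAx' : (A : ℤ) ≤ x := by exact_mod_cast hAx
  have hA0 : (0 : ℤ) ≤ A := by positivity
  have hk := REN_nn hz
  have p1 : 0 < lc z w * ac z' w := mul_pos (by linarith) h4
  have p1' : lc z w * ac z' w ≤ 2 * x * A := mul_le_mul h1' h4' h4.le (by linarith)
  have p2 : 0 < lc z' w * ac z w := mul_pos (by linarith) h3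
  have p2' : lc z' w * ac z w ≤ 2 * x * A := mul_le_mul h2' h3' h3.le (by linarith)
  have hDn : |dl z z'| * |N8 w| ≤ 2 * x * A := by
    rw [← abs_mul, REN_e1, abs_le]
    constructor <;> linarith
  have hkn : 7 * (x : ℤ) ^ 2 ≤ |N8 z| * |N8 w| := by
    rw [← abs_mul, REN_e2]
    have q1 : (x : ℤ) ^ 2 ≤ lc z w ^ 2 := pow_le_pow_left₀ (by linarith) h1.le 2
    have q2 : ac z w ^ 2 ≤ (x : ℤ) ^ 2 := pow_le_pow_left₀ h3.le (h3'.trans hAx') 2
    rw [le_abs]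
    right
    linarith
  have hD0 := abs_nonneg (dl z z')
  have hn0 := abs_nonneg (N8 w)
  have key : (x : ℤ) * (7 * (x * |dl z z'|)) ≤ x * (4 * (N * A)) := by
    calc (x : ℤ) * (7 * (x * |dl z z'|)) = |dl z z'| * (7 * (x : ℤ) ^ 2) := by ring
      _ ≤ |dl z z'| * (|N8 z| * |N8 w|) := mul_le_mul_of_nonneg_left hkn hD0
      _ = |N8 z| * (|dl z z'| * |N8 w|) := by ring
      _ ≤ (2 * (N : ℤ)) * (2 * x * A) := mul_le_mul hk hDn (by positivity) (by positivity)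
      _ = x * (4 * (N * A)) := by ring
  have key2 := le_of_mul_le_mul_left key (by linarith)
  have hNA : (0 : ℤ) ≤ N * A := by positivity
  have h7 : (x : ℤ) * |dl z z'| ≤ N * A := by linarith
  have h8 : ((x * (dl z z').natAbs : ℕ) : ℤ) ≤ ((N * A : ℕ) : ℤ) := by
    push_cast
    exact h7
  exact_mod_cast h8

private theorem REN_two {K : ℕ} (hK : 1 ≤ K) : (2 : ℝ) ^ ((1 : ℝ) / K) ≤ 1 + 1 / K := by
  have hK' : (1 : ℝ) ≤ K := by exact_mod_cast hK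
  have h0 : (0 : ℝ) ≤ 1 / K := by positivity
  have h1 : (1 : ℝ) / K ≤ 1 := by
    rw [div_le_one (by linarith)]
    exact hK'
  have h := _root_.rpow_one_add_le_one_add_mul_self (s := (1 : ℝ)) (by norm_num) h0 h1
  have e : (1 : ℝ) + 1 = 2 := by norm_num
  rw [e, mul_one] at h
  exact h

/-- the quotient of two elements of cells -/
private theorem REN_rho {x K : ℕ} (hx : 1 ≤ x) (hK : 1 ≤ K) {i j : ℕ} {m : ℤ} (hm : (j : ℤ) - i = m) (hmK : m < K)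
    {l₁ l₂ : ℝ} (a1 : (x : ℝ) * (2 : ℝ) ^ ((i : ℝ) / K) < l₁) (a2 : l₁ ≤ (x : ℝ) * (2 : ℝ) ^ (((i : ℝ) + 1) / K))
    (b1 : (x : ℝ) * (2 : ℝ) ^ ((j : ℝ) / K) < l₂) (b2 : l₂ ≤ (x : ℝ) * (2 : ℝ) ^ (((j : ℝ) + 1) / K)) :
    |l₂ / l₁ - (2 : ℝ) ^ ((m : ℝ) / K)| ≤ 2 / K := by
  have hx' : (0 : ℝ) < x := by exact_mod_cast hx
  have hK' : (0 : ℝ) < K := by exact_mod_cast hK
  have hl₁ : 0 < l₁ := lt_trans (by positivity) a1
  set M : ℝ := (2 : ℝ) ^ ((m : ℝ) / K) with hM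
  set t : ℝ := (2 : ℝ) ^ ((1 : ℝ) / K) with ht
  set u : ℝ := (2 : ℝ) ^ ((i : ℝ) / K) with hu
  have hM0 : 0 < M := by positivity
  have ht1 : 1 ≤ t := Real.one_le_rpow (by norm_num) (by positivity)
  have ht2 : t ≤ 1 + 1 / K := REN_two hK
  have hu0 : 0 < u := by positivity
  have hm' : (m : ℝ) = (j : ℝ) - i := by
    rw [← hm]; push_cast; ring
  have hj : (2 : ℝ) ^ ((j : ℝ) / K) = u * M := by
    rw [hu, hM, ← Real.rpow_add (by norm_num), hm']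
    congr 1
    ring
  have hj1 : (2 : ℝ) ^ (((j : ℝ) + 1) / K) = u * M * t := by
    rw [← hj, ht, ← Real.rpow_add (by norm_num)]
    congr 1
    ring
  have hi1 : (2 : ℝ) ^ (((i : ℝ) + 1) / K) = u * t := by
    rw [hu, ht, ← Real.rpow_add (by norm_num)]
    congr 1
    ring
  rw [hi1] at a2
  rw [hj] at b1
  rw [hj1] at b2
  have hM2 : M ≤ 2 := by
    calc M ≤ (2 : ℝ) ^ (1 : ℝ) := by
          refine Real.rpow_le_rpow_of_exponent_le (by norm_num) ?_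
          rw [div_le_one hK']
          have : (m : ℝ) < ((K : ℤ) : ℝ) := by exact_mod_cast hmK
          push_cast at this
          exact this.le
      _ = 2 := Real.rpow_one 2
  have h1K : (0 : ℝ) < 1 / K := by positivity
  -- upper
  have up : l₂ / l₁ ≤ M * t := by
    rw [div_le_iff₀ hl₁]
    calc l₂ ≤ x * (u * M * t) := b2
      _ = M * t * (x * u) := by ring
      _ ≤ M * t * l₁ := mul_le_mul_of_nonneg_left a1.le (by positivity)
  have lo : M ≤ l₂ / l₁ * t := by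
    rw [div_mul_eq_mul_div, le_div_iff₀ hl₁]
    calc M * l₁ ≤ M * (x * (u * t)) := mul_le_mul_of_nonneg_left a2 hM0.le
      _ = x * (u * M) * t := by ring
      _ ≤ l₂ * t := mul_le_mul_of_nonneg_right b1.le (by linarith)
  have e : (2 : ℝ) / K = 2 * (1 / K) := by ring
  rw [e, abs_le]
  constructor
  · -- M ≤ ρ t ≤ ρ (1 + 1/K)
    have hρ0 : 0 < l₂ / l₁ := by
      have : 0 < l₂ := lt_trans (by positivity) b1
      positivity
    by_cases hc : l₂ / l₁ ≤ 2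
    · nlinarith
    · push Not at hc
      nlinarith
  · nlinarith

theorem REN (hGPT : GPT_stmt) (hFFC : FFC_stmt) : REN_stmt := by
  intro x N A hx hN hA hAx z hz z' hz' w h1 h1' h2 h2' h3 h3' h4 h4'
  have hone := REN_one hx hAx hz h1 h1' h2 h2' h3 h3' h4 h4'
  refine ⟨hone, ?_⟩
  intro K₁ K₃ K₄ hK₁ hK₃ hK₄ hsize hrel b hb m hin
  obtain ⟨i, hi, j, hj, hm, hc1, hc2⟩ := hin
  have hK : 1 ≤ K₃ * K₄ := Nat.mul_pos hK₃ hK₄
  rw [mem_Ico] at hi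
  rw [mem_range] at hj
  have hiK : i < K₃ * K₄ := lt_of_lt_of_le hi.2 (Nat.mul_le_mul_right _ hb)
  have hg := (hGPT x (K₃ * K₄) hx hK).2.2.2.1
  obtain ⟨a1, a2⟩ := (hg i _).1 hc1
  obtain ⟨b1, b2⟩ := (hg j _).1 hc2
  have hiK' : (i : ℤ) < ((K₃ * K₄ : ℕ) : ℤ) := by exact_mod_cast hiK
  have hjK' : (j : ℤ) < ((K₃ * K₄ : ℕ) : ℤ) := by exact_mod_cast hj
  have hi0 : (0 : ℤ) ≤ i := by positivity
  have hj0 : (0 : ℤ) ≤ j := by positivity
  have hmK : m < ((K₃ * K₄ : ℕ) : ℤ) := by omega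
  have hρ := REN_rho hx hK hm hmK a1 a2 b1 b2
  unfold Mz
  rw [mem_filter, mem_Ioo]
  refine ⟨⟨by omega, hmK⟩, ?_⟩
  have hx' : (0 : ℝ) < x := by exact_mod_cast hx
  have hl₁ : (x : ℝ) < (lc z w : ℝ) := by exact_mod_cast h1
  have hl₁0 : (0 : ℝ) < (lc z w : ℝ) := by linarith
  have e3 : (dl z z' : ℝ) * ac z w = sp z z' * lc z w - N8 z * lc z' w := by exact_mod_cast REN_e3 z z' w
  have hk : |(N8 z : ℝ)| ≤ 2 * N := by exact_mod_cast REN_nn hz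
  have hDcast : (((dl z z').natAbs : ℕ) : ℝ) = |(dl z z' : ℝ)| := by
    rw [Nat.cast_natAbs, Int.cast_abs]
  have hac0 : (0 : ℝ) < ac z w := by exact_mod_cast h3
  have hacA : (ac z w : ℝ) ≤ A := by exact_mod_cast h3'
  have f1 : |(sp z z' : ℝ) - N8 z * ((lc z' w : ℝ) / lc z w)| ≤ A * |(dl z z' : ℝ)| / x := by
    have e4 : (sp z z' : ℝ) - N8 z * ((lc z' w : ℝ) / lc z w) = dl z z' * ac z w / lc z w := by
      rw [e3]
      field_simp
    rw [e4, abs_div, abs_mul, abs_of_pos hac0, abs_of_pos hl₁0, div_le_div_iff₀ hl₁0 hx']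
    calc |(dl z z' : ℝ)| * ac z w * x ≤ |(dl z z' : ℝ)| * A * x :=
          mul_le_mul_of_nonneg_right (mul_le_mul_of_nonneg_left hacA (abs_nonneg _)) hx'.le
      _ ≤ |(dl z z' : ℝ)| * A * lc z w := mul_le_mul_of_nonneg_left hl₁.le (by positivity)
      _ = A * |(dl z z' : ℝ)| * lc z w := by ring
  set K : ℕ := K₃ * K₄ with hKdef
  have f2 : |(N8 z : ℝ) * ((lc z' w : ℝ) / lc z w) - N8 z * (2 : ℝ) ^ ((m : ℝ) / K)| ≤ 2 * N * (2 / K) := by
    rw [← mul_sub, abs_mul]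
    exact mul_le_mul hk hρ (abs_nonneg _) (by positivity)
  have f3 : 2 * (N : ℝ) * (2 / K) ≤ A * |(dl z z' : ℝ)| / x := by
    have hK0 : (0 : ℝ) < K := by exact_mod_cast hK
    have hK₃' : (1 : ℝ) ≤ K₃ := by exact_mod_cast hK₃
    have hK₄' : (1 : ℝ) ≤ K₄ := by exact_mod_cast hK₄
    have hK₁' : (1 : ℝ) ≤ K₁ := by exact_mod_cast hK₁
    have hA' : (1 : ℝ) ≤ A := by exact_mod_cast hA
    have hN' : (1 : ℝ) ≤ N := by exact_mod_cast hN
    have hs : 160 * (K₁ : ℝ) * x ^ 2 ≤ K₄ * A ^ 2 := by exact_mod_cast hsize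
    have hr : (N : ℝ) * A < K₁ * (x * |(dl z z' : ℝ)|) := by
      rw [← hDcast]
      exact_mod_cast hrel
    have e5 : 2 * (N : ℝ) * (2 / K) = 4 * N / K := by ring
    rw [e5, div_le_div_iff₀ hK0 hx']
    have hKe : (K : ℝ) = K₃ * K₄ := by rw [hKdef]; push_cast; ring
    rw [hKe]
    have hD0 := abs_nonneg (dl z z' : ℝ)
    -- 4 N x * (K₁ x) * A ≤ A D K₃ K₄ * (K₁ x) * A
    have hpos : 0 < (K₁ : ℝ) * x * A := by positivity
    refine le_of_mul_le_mul_right ?_ hpos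
    calc 4 * (N : ℝ) * x * (K₁ * x * A) = (4 * K₁ * x ^ 2) * (N * A) := by ring
      _ ≤ (4 * K₁ * x ^ 2) * (K₁ * (x * |(dl z z' : ℝ)|)) := mul_le_mul_of_nonneg_left hr.le (by positivity)
      _ ≤ (160 * K₁ * x ^ 2) * (K₁ * (x * |(dl z z' : ℝ)|)) :=
          mul_le_mul_of_nonneg_right (by nlinarith [sq_nonneg (x : ℝ)]) (by positivity)
      _ ≤ (K₄ * A ^ 2) * (K₁ * (x * |(dl z z' : ℝ)|)) := mul_le_mul_of_nonneg_right hs (by positivity)
      _ = 1 * ((K₄ * A ^ 2) * (K₁ * (x * |(dl z z' : ℝ)|))) := by ring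
      _ ≤ K₃ * ((K₄ * A ^ 2) * (K₁ * (x * |(dl z z' : ℝ)|))) := mul_le_mul_of_nonneg_right hK₃' (by positivity)
      _ = A * |(dl z z' : ℝ)| * (K₃ * K₄) * (K₁ * x * A) := by ring
  rw [hDcast]
  have f4 : (sp z z' : ℝ) - N8 z * (2 : ℝ) ^ ((m : ℝ) / K) =
      ((sp z z' : ℝ) - N8 z * ((lc z' w : ℝ) / lc z w)) +
      ((N8 z : ℝ) * ((lc z' w : ℝ) / lc z w) - N8 z * (2 : ℝ) ^ ((m : ℝ) / K)) := by ring
  rw [f4]
  refine (abs_add_le _ _).trans ?_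
  have e6 : 2 * (A : ℝ) * |(dl z z' : ℝ)| / x = A * |(dl z z' : ℝ)| / x + A * |(dl z z' : ℝ)| / x := by ring
  rw [e6]
  exact add_le_add f1 (f2.trans f3)

end Pool.Agent.FJ
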